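import Pool.Agent.N798.T.Stm

/-!
# Project T/R0: the first node (helper163)
-/

set_option autoImplicit false

namespace Pool.Agent.N163.T

open Finset MeasureTheory Filter Topology
open scoped ENNReal
open Pool.Agent.H376R2.MR (er)
open Pool.Agent.N798.T

theorem r0 : S_R0 := by
  intro a e par b c s hW A K
  obtain ⟨K', C, hC⟩ := hW.tw A K
  have hl2 : 0 < Real.log 2 := Real.log_pos (by norm_num)
  refine ⟨K', C ^ 2 / (Real.log 2) ^ K, by positivity, ?_⟩
  intro N N' τ hN hNN hN2 hτ hK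
  rw [Finset.sum_range_one] at hK
  have hex : ex par c 0 = 1 := by rw [ex]
  rw [hex, one_mul] at hK
  have h1 := hC N N' (τ 0) hN hNN hN2 hK (hτ 0 (Finset.mem_range.2 Nat.one_pos))
  have hTW : ∀ ω : Fin 0 → ℝ, ∑ n ∈ Ioc N N', TW a par b c s 0 ω n τ =
      ∑ n ∈ Ioc N N', a 0 n * er (τ 0) (Real.log n) := by
    intro ω
    refine Finset.sum_congr rfl fun n _ => ?_
    unfold TW
    rw [Finset.prod_range_one]
    have h0 : nd par b c (al s 0 ω) n 0 = n := by rw [nd]
    rw [h0]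
  have hmu : mu 0 Set.univ = 1 := by
    unfold mu
    rw [Measure.pi_univ]
    simp
  simp only [hTW]
  rw [lintegral_const, hmu, mul_one]
  obtain ⟨S, hS⟩ : ∃ S : ℂ, S = ∑ n ∈ Ioc N N', a 0 n * er (τ 0) (Real.log n) := ⟨_, rfl⟩
  rw [← hS] at h1 ⊢
  rw [← ofReal_norm_eq_enorm, ← ENNReal.ofReal_pow (norm_nonneg _)]
  apply ENNReal.ofReal_le_ofReal
  have hN0 : (0 : ℝ) < N := by exact_mod_cast (by omega : 0 < N)
  have hlog : Real.log 2 ≤ Real.log N := Real.log_le_log (by norm_num) (by exact_mod_cast hN)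
  have hlN : 0 < Real.log N := by linarith
  have h2 : ‖S‖ ^ 2 ≤ (C * N / (Real.log N) ^ K) ^ 2 := pow_le_pow_left₀ (norm_nonneg _) h1 2
  refine h2.trans ?_
  have h3 : (Real.log 2) ^ K ≤ (Real.log N) ^ K := pow_le_pow_left₀ hl2.le hlog K
  have h4 : (C * N / (Real.log N) ^ K) ^ 2 = C ^ 2 * N ^ 2 / ((Real.log N) ^ K * (Real.log N) ^ K) := by
    ring
  have h5 : C ^ 2 / (Real.log 2) ^ K * N ^ 2 / (Real.log N) ^ K =
      C ^ 2 * N ^ 2 / ((Real.log 2) ^ K * (Real.log N) ^ K) := by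
    field_simp
  rw [h4, h5]
  apply div_le_div_of_nonneg_left (by positivity) (by positivity)
  exact mul_le_mul_of_nonneg_right h3 (by positivity)

end Pool.Agent.N163.T
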